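import Pool.Agent.H83.MV.CoreNotHull

/-!
# `conv D_τ(S)` and the `(τ - 1)`-core
-/

set_option autoImplicit false

namespace Pool.Agent.Results.MP_8fed12_co.CoreNotHull

open Pool.H83.MV.CoreNotHull

open Finset

/-- For all `d ≥ 3`, `τ ≥ 2` with `(d, τ) ≠ (3, 2)` there is a set `S` of exactly
`(τ-1)(d+1)+1` points of `ℝ^d` for which `conv D_τ(S)` is a proper subset of the `(τ-1)`-core;
for `τ ≥ 3` the set `S` affinely spans `ℝ^d`. -/
theorem result (d τ : ℕ) (hd : 3 ≤ d) (hτ : 2 ≤ τ) (hne : ¬ (d = 3 ∧ τ = 2)) :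
    ∃ S : Finset (Fin d → ℝ), S.card = (τ - 1) * (d + 1) + 1 ∧
      (3 ≤ τ → affineSpan ℝ (S : Set (Fin d → ℝ)) = ⊤) ∧
      convexHull ℝ (tverbergPoints τ S) ⊂ core (τ - 1) S :=
  Pool.H83.MV.CoreNotHull.result d τ hd hτ hne

end Pool.Agent.Results.MP_8fed12_co.CoreNotHull
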